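import Pool.Agent.E8helper23.CT3.SEL
import Pool.Agent.E8helper41.CTK3.Exl
import Pool.Agent.Y155.CT.Act
import Pool.Agent.Y363.CT.SELC

/-!
# Project CTL3, SELK3: the Selmer characters for the twists by `3 D` are the solutions of the
weighted system together with the exponent of `lam`
-/

set_option autoImplicit false
set_option linter.unusedSectionVars false
set_option linter.unusedVariables false

open scoped Classical

namespace Pool.Agent.E8helper86.CTL3

open Pool.Agent.Y692.QS (Ei w nr)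
open Pool.Agent.Y715.T.Gi Pool.Agent.Y715.T.Nr Pool.Agent.Y715.T.Df
open Pool.Agent.Y715.T.Rec (cs)
open Pool.Agent.Y715.T.RecG
open Pool.Agent.Y715.T.Sel (fac kc_mul kc_one kc_congr kc_pow kc_cube kc_uniq kc_cancel kc_unit
  kc_exp ex_root root_ne iota_sq iota_ev odd_of not_dvd_of_unr resid_kc exists_emb3)
open Pool.Agent.Y703.CT
open Pool.Agent.E8helper20.CT3
open Pool.Agent.Y48.CT.SEL (not_lam not_assoc_lam p0 pr0 esq prod_form support)
open Pool.Agent.E8helper23.CT3.SEL (rh rh_prime rh0 rh_nd rp0 not_dvd_prod' cf_prod' EE prod_opt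
  three_pD cs_three val2)
open Pool.Agent.E8helper41.CTK3 (cube_of_triv)
open Pool.Agent.Y155.CT (T3 jj_T3 pm_T3 jh jh_apply jj_add nsmul_tt a_mul a_cont)
open Pool.Agent.Y363.CT.SELC (exists_tw)

variable {J : Type} [Fintype J] {π : J → Ei} {e : J → ZMod 3}
variable {i₀ : QB} {hi : i₀ ^ 2 + i₀ + 1 = 0}

/-- the exponents of the Kummer generator -/
def YY (e : J → ZMod 3) (g : ZMod 3) (w : J → ZMod 3) : Option J → ZMod 3
  | none => g
  | some j => e j * (w j - g)

/-- the character of `-3 D` -/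
lemma kc_a (hD : Dt π e) {u : QB} {a : GK i₀ → ZMod 3} (hTw : Tw hi (3 * pD π e) u a) :
    Kc hi (∏ k, rh π k ^ (EE e k).val) (fun σ => -a σ) := by
  have h30 : (3 : Ei) * pD π e ≠ 0 := by
    rw [three_pD]
    exact mul_ne_zero (neg_ne_zero.2 one_ne_zero) (rp0 hD _)
  refine kc_unit (rp0 hD _) (Or.inr rfl) ?_
  rw [← three_pD]
  exact kc_of hi (root_ne (hi := hi) (z := 3 * pD π e) h30 hTw.cube) hTw.cube hTw.act

/-- a Selmer character comes from the kernel (from the proof of CT3-SEL) -/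
theorem sel_ker3 (hLOC : S_LOC33) (hRAM : S_RAM3) (hUNR : S_UNR3) (hD : Dt π e) {u : QB}
    {a : GK i₀ → ZMod 3} (hTw : Tw hi (3 * pD π e) u a) {h : GK i₀ → ZMod 3}
    (hc : IsLocallyConstant h) (hm : ∀ σ τ, h (σ * τ) = h σ + h τ)
    (hloc : ∀ (p : ℕ) [Fact p.Prime] (ι : QB →ₐ[ℚ] PadicAlgCl p), ∃ R, St1 hi ι a h R) :
    ∃ (g : ZMod 3) (w : J → ZMod 3), KerV3 π e w ∧ Kc hi (∏ k, rh π k ^ (YY e g w k).val) h := by
  -- the character `a`
  have hb := kc_a hD hTw
  -- the Kummer generator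
  obtain ⟨z, hz, hzh⟩ := kum hi h hc hm
  obtain ⟨v₀, g, x, hu, ez⟩ := fac (π := π) z hz.1 (support hD hz hzh
    (fun p _ ι hp3 hpj τ σ hcc hτ => by
      obtain ⟨R, hR⟩ := hloc p ι
      exact (hUNR J π e hD i₀ hi u a hTw h p ι hp3 hpj R hR τ σ hcc hτ).2))
  rw [ez] at hzh
  obtain ⟨ι₃⟩ := exists_emb3
  obtain ⟨q, hq⟩ := prod_form hD x
  have hq' : ∏ j, π j ^ x j = 1 + 3 * q := by rw [← hq]; ring
  -- the exponents
  set X : Option J → ℕ := fun k => k.elim g x with hX
  have hX0 : X none = g := rfl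
  have hX1 : ∀ j, X (some j) = x j := fun j => rfl
  have hx : Kc hi (∏ k, rh π k ^ X k) h := by
    obtain ⟨R, hR⟩ := hloc 3 ι₃
    have hzh' := hzh
    rw [hq'] at hzh'
    have hu1 := hLOC i₀ hi (pD π e) (prod_form hD _) u a hTw h v₀ q g hu hzh'
      inferInstance ι₃ R hR
    refine kc_unit (rp0 hD _) hu1 ?_
    rw [prod_opt]
    have e1 : v₀ * (lam ^ X none * ∏ j, π j ^ X (some j)) = v₀ * lam ^ g * ∏ j, π j ^ x j := by
      rw [hX0]
      simp only [hX1]
      ring
    rw [e1]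
    exact hzh
  set v : J → ZMod 3 := fun j => x j * e j with hv
  have hxv : ∀ j, (x j : ZMod 3) = e j * v j := by
    intro j
    have := esq hD j
    calc (x j : ZMod 3) = x j * (e j * e j) := by rw [this, mul_one]
      _ = _ := by rw [hv]; ring
  have heq : KerV3 π e (fun j => v j + g) := by
    intro j
    obtain ⟨p, hp, ι, hl⟩ := exists_emb hi (hD.pq j).prime
    have hp3 := odd_of hi ι (hD.pq j).prime hl (not_assoc_lam (hD.pq j))
    obtain ⟨R, hR⟩ := hloc p ι
    obtain ⟨ε, hε⟩ := hRAM J π e hD i₀ hi u a hTw h j p ι hl R hR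
    -- the character that is trivial at `π j`
    set n : ℕ := ε.val with hn
    have hn3 : (n : ZMod 3) = ε := ZMod.natCast_zmod_val _
    have hy := kc_mul (rp0 hD X) (pow_ne_zero n (rp0 hD _)) hx (kc_pow (rp0 hD _) hb n)
    have hy1 : ∀ (τ : Au p) (σ : GK i₀), Cmp ι τ σ → h σ + n * -a σ = 0 := by
      intro τ σ hcc
      rw [hε τ σ hcc, hn3]
      ring
    have ey : (∏ i, rh π i ^ X i) * (∏ i, rh π i ^ (EE e i).val) ^ n =
        ∏ i, rh π i ^ (X i + (EE e i).val * n) := by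
      rw [← Finset.prod_pow, ← Finset.prod_mul_distrib]
      refine Finset.prod_congr rfl fun i _ => ?_
      rw [← pow_mul, ← pow_add]
    rw [ey] at hy
    set y : Option J → ZMod 3 := fun i => X i + EE e i * ε with hydef
    have hy2 : Kc hi (∏ i, rh π i ^ (y i).val) (fun σ => h σ + n * -a σ) := by
      refine kc_exp (rh0 hD) (fun i => ?_) hy
      rw [ZMod.natCast_zmod_val, hydef]
      push_cast
      rw [hn3, ZMod.natCast_zmod_val]
    have hl' : ‖ι (ev i₀ hi (rh π (some j)))‖ < 1 := hl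
    have hyj : y (some j) = 0 := by
      have h1 := not_dvd_of_unr (cf_prod' hD y) hy2 hp3 ι (rh_prime hD (some j)) hl'
        (fun τ σ hcc _ => hy1 τ σ hcc)
      by_contra hne
      apply h1
      refine dvd_trans (dvd_pow_self (rh π (some j)) ?_) (Finset.dvd_prod_of_mem
        (fun i => rh π i ^ (y i).val) (Finset.mem_univ (some j)))
      rwa [Ne, ZMod.val_eq_zero]
    have hεv : ε = -v j := by
      have h1 : (x j : ZMod 3) + e j * ε = 0 := hyj
      have h2 := esq hD j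
      rw [hxv j] at h1
      calc ε = (e j * e j) * ε := by rw [h2, one_mul]
        _ = e j * (e j * v j + e j * ε) - (e j * e j) * v j := by ring
        _ = _ := by rw [h1, h2]; ring
    have hyi : ∀ i, y (some i) = e i * (v i - v j) := by
      intro i
      change (x i : ZMod 3) + e i * ε = _
      rw [hxv i, hεv]
      ring
    have hy0 : y none = g - 2 * v j := by
      change (g : ZMod 3) + 2 * ε = _
      rw [hεv]
      ring
    have e2 : ∏ i, rh π i ^ (y i).val =
        lam ^ (y none).val * ∏ i ∈ Finset.univ.erase j, π i ^ (y (some i)).val := by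
      rw [prod_opt, ← Finset.mul_prod_erase Finset.univ (fun i => π i ^ (y (some i)).val)
        (Finset.mem_univ j), hyj, ZMod.val_zero, pow_zero, one_mul]
    rw [e2] at hy2
    have hcube := resid_kc hy2 hp3 ι (hD.pq j).prime hl hy1
    have h9 := (hD.pq j).norm
    have hpj := (hD.pq j).prime
    have hnl : ¬ π j ∣ lam := not_lam (hD.pq j)
    have hnlp : ¬ π j ∣ lam ^ (y none).val := fun h1 => hnl (hpj.dvd_of_dvd_pow h1)
    have hnd := Pool.Agent.Y48.CT.SEL.not_dvd_prod hD j (fun i => (y (some i)).val)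
    have hndm : ¬ π j ∣ lam ^ (y none).val *
        ∏ i ∈ Finset.univ.erase j, π i ^ (y (some i)).val := by
      intro h1
      rcases hpj.dvd_or_dvd h1 with h2 | h2
      · exact hnlp h2
      · exact hnd h2
    have hcs := (cs_zero_iff hpj h9 hndm).2 hcube
    have hnd1 : ∀ i ∈ Finset.univ.erase j, ¬ π j ∣ π i := fun i hij =>
      hD.nd i j (Finset.ne_of_mem_erase hij)
    rw [cs_mul hpj h9 hnlp hnd, cs_pow hpj h9 hnl, ZMod.natCast_zmod_val, hy0,
      cs_three (hD.pq j),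
      cs_prod hpj h9 _ _ (fun i hij h1 => hnd1 i hij (hpj.dvd_of_dvd_pow h1))] at hcs
    have e3 : ∑ i ∈ Finset.univ.erase j, cs (π j) (π i ^ (y (some i)).val) =
        ∑ i, e i * cs (π j) (π i) * ((v i + g) - (v j + g)) := by
      rw [← Finset.add_sum_erase Finset.univ _ (Finset.mem_univ j), sub_self, mul_zero, zero_add]
      refine Finset.sum_congr rfl fun i hij => ?_
      rw [cs_pow hpj h9 (hnd1 i hij), ZMod.natCast_zmod_val, hyi i]
      ring
    rw [e3] at hcs
    have h4 : (3 : ZMod 3) = 0 := by decide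
    linear_combination hcs + (v j * cs (π j) 3 - g * cs (π j) 3) * h4
  refine ⟨g, fun j => v j + g, heq, kc_exp (rh0 hD) (fun k => ?_) hx⟩
  rw [ZMod.natCast_zmod_val]
  cases k with
  | none => rfl
  | some j =>
    show (x j : ZMod 3) = e j * (v j + g - g)
    rw [hxv j, add_sub_cancel_right]

/-- a product with trivial character -/
lemma exp3 (hD : Dt π e) (f : Option J → ℕ) {h : GK i₀ → ZMod 3}
    (hk : Kc hi (∏ k, rh π k ^ f k) h) (h0 : ∀ σ, h σ = 0) (k : Option J) : 3 ∣ f k := by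
  obtain ⟨y, z, hy, hyz⟩ := cube_of_triv hk h0
  have hp := rh_prime hD k
  have hz : z ≠ 0 := by
    rintro rfl
    rw [zero_pow three_ne_zero] at hyz
    exact mul_ne_zero (rp0 hD f) (pow_ne_zero 3 hy) hyz
  have hf : ∀ t : Ei, t ≠ 0 → FiniteMultiplicity (rh π k) t := fun t ht =>
    FiniteMultiplicity.of_prime_left hp ht
  have hnd := not_dvd_prod' hD k f
  have hr0 : ∏ i ∈ Finset.univ.erase k, rh π i ^ f i ≠ 0 :=
    Finset.prod_ne_zero_iff.2 fun i _ => pow_ne_zero _ (rh0 hD i)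
  have hk0 : rh π k ^ f k ≠ 0 := pow_ne_zero _ (rh0 hD k)
  have hy3 : y ^ 3 ≠ 0 := pow_ne_zero 3 hy
  have h1 := congrArg (multiplicity (rh π k)) hyz
  rw [← Finset.mul_prod_erase Finset.univ (fun i => rh π i ^ f i) (Finset.mem_univ k)] at h1
  rw [multiplicity_mul hp (hf _ (mul_ne_zero (mul_ne_zero hk0 hr0) hy3)),
    multiplicity_mul hp (hf _ (mul_ne_zero hk0 hr0)),
    multiplicity_pow_self_of_prime hp, multiplicity_eq_zero.2 hnd,
    (hf y hy).multiplicity_pow hp, (hf z hz).multiplicity_pow hp] at h1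
  omega

/-- the data are determined by the character -/
theorem uniq3 (hD : Dt π e) {g g' : ZMod 3} {v v' : J → ZMod 3} {h : GK i₀ → ZMod 3}
    (h1 : Kc hi (∏ k, rh π k ^ (YY e g v k).val) h)
    (h2 : Kc hi (∏ k, rh π k ^ (YY e g' v' k).val) h) : g = g' ∧ v = v' := by
  have hy := kc_mul (rp0 hD _) (pow_ne_zero 2 (rp0 hD _)) h1 (kc_pow (rp0 hD _) h2 2)
  have ey : (∏ k, rh π k ^ (YY e g v k).val) * (∏ k, rh π k ^ (YY e g' v' k).val) ^ 2 =
      ∏ k, rh π k ^ ((YY e g v k).val + (YY e g' v' k).val * 2) := by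
    rw [← Finset.prod_pow, ← Finset.prod_mul_distrib]
    refine Finset.prod_congr rfl fun i _ => ?_
    rw [← pow_mul, ← pow_add]
  rw [ey] at hy
  have t3 : (3 : ZMod 3) = 0 := by decide
  have h3 : ∀ k, YY e g v k = YY e g' v' k := by
    intro k
    have h4 := exp3 hD _ hy (fun σ => by
      show h σ + ((2 : ℕ) : ZMod 3) * h σ = 0
      push_cast
      linear_combination (h σ) * t3) k
    have h5 : (((YY e g v k).val + (YY e g' v' k).val * 2 : ℕ) : ZMod 3) = 0 :=
      (ZMod.natCast_eq_zero_iff _ _).2 h4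
    push_cast at h5
    rw [ZMod.natCast_zmod_val, ZMod.natCast_zmod_val] at h5
    linear_combination h5 - (YY e g' v' k) * t3
  have hg : g = g' := h3 none
  refine ⟨hg, funext fun j => ?_⟩
  have h6 : e j * (v j - g) = e j * (v' j - g') := h3 (some j)
  rw [hg] at h6
  have h7 := esq hD j
  linear_combination e j * h6 + (v' j - v j) * h7

/-- the sum with a multiple of the class of the curve -/
lemma st1_add {p : ℕ} [Fact p.Prime] {ι : QB →ₐ[ℚ] PadicAlgCl p} {a h : GK i₀ → ZMod 3}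
    {R : Pt (PadicAlgCl p)} (hR : St1 hi ι a h R) (c : ZMod 3) :
    St1 hi ι a (fun σ => h σ + c * -a σ) (R + c.val • T3 (iota_sq' hi ι)) := by
  intro τ σ hc
  have h1 := hR τ σ hc
  have h2 : jj (iota_sq' hi ι) (a σ) (pm (lh τ) (c.val • T3 (iota_sq' hi ι))) =
      c.val • T3 (iota_sq' hi ι) - tt _ (c * a σ) := by
    rw [map_nsmul, pm_T3 _ (lh τ) (iota_sq' hi ι) hc.fix, ← jh_apply, map_nsmul, jh_apply,
      jj_T3, smul_sub, nsmul_tt, ZMod.natCast_zmod_val]
  rw [map_add, jj_add, h2, tt_add, ← h1, mul_neg, ← tt_neg]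
  abel

/-- the kernel gives Selmer characters -/
theorem ker_sel3 (hD : Dt π e) {u : QB} {a : GK i₀ → ZMod 3} (hTw : Tw hi (3 * pD π e) u a)
    (hK : ∀ v : J → ZMod 3, KerV3 π e v →
      ∀ h : GK i₀ → ZMod 3, Kc hi (∏ j, π j ^ (e j * v j).val) h →
      ∀ (p : ℕ) [Fact p.Prime] (ι : QB →ₐ[ℚ] PadicAlgCl p), ∃ R, St1 hi ι a h R)
    {v : J → ZMod 3} (hv : KerV3 π e v) (g : ZMod 3) :
    ∃ h : GK i₀ → ZMod 3, (IsLocallyConstant h ∧ (∀ σ τ, h (σ * τ) = h σ + h τ) ∧
      ∀ (p : ℕ) [Fact p.Prime] (ι : QB →ₐ[ℚ] PadicAlgCl p), ∃ R, St1 hi ι a h R) ∧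
      Kc hi (∏ k, rh π k ^ (YY e g v k).val) h := by
  have hne : 3 * pD π e ≠ 0 := Pool.Agent.E8helper85.CT3.three_pD_ne hD
  have hB0 : (∏ j, π j ^ (e j * v j).val) ≠ 0 := pr0 hD _
  obtain ⟨β, a', hTw'⟩ := exists_tw (hi := hi) (∏ j, π j ^ (e j * v j).val)
  have hm : ∀ σ τ : GK i₀, -a' (σ * τ) = -a' σ + -a' τ := by
    intro σ τ
    rw [a_mul hB0 hTw' σ τ]
    ring
  have hc : IsLocallyConstant (fun σ : GK i₀ => -a' σ) :=
    (a_cont hB0 hTw').comp (fun c : ZMod 3 => -c)
  have hKc : Kc hi (∏ j, π j ^ (e j * v j).val) (fun σ => -a' σ) :=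
    kc_of hi (root_ne (hi := hi) hB0 hTw'.cube) hTw'.cube hTw'.act
  have hloc : ∀ (p : ℕ) [Fact p.Prime] (ι : QB →ₐ[ℚ] PadicAlgCl p),
      ∃ R, St1 hi ι a (fun σ => -a' σ) R := hK v hv _ hKc
  have hb := kc_a hD hTw
  refine ⟨fun σ => -a' σ + 2 * g * -a σ, ⟨?_, fun σ τ => ?_, fun p _ ι => ?_⟩, ?_⟩
  · exact hc.add ((a_cont hne hTw).comp (fun c : ZMod 3 => 2 * g * -c))
  · show -a' (σ * τ) + 2 * g * -a (σ * τ) = _
    rw [hm σ τ, a_mul hne hTw σ τ]
    ring
  · obtain ⟨R, hR⟩ := hloc p ι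
    exact ⟨_, st1_add hR (2 * g)⟩
  · have h1 := kc_mul hB0 (pow_ne_zero (2 * g).val (rp0 hD _)) hKc
      (kc_pow (rp0 hD _) hb (2 * g).val)
    have e0 : (∏ j, π j ^ (e j * v j).val) =
        ∏ k : Option J, rh π k ^ (k.elim 0 (fun j => (e j * v j).val)) := by
      rw [prod_opt]
      show _ = lam ^ 0 * _
      rw [pow_zero, one_mul]
      rfl
    rw [e0] at h1
    have ey : (∏ k : Option J, rh π k ^ (k.elim 0 (fun j => (e j * v j).val))) *
        (∏ k, rh π k ^ (EE e k).val) ^ (2 * g).val =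
        ∏ k : Option J, rh π k ^ (k.elim 0 (fun j => (e j * v j).val) +
          (EE e k).val * (2 * g).val) := by
      rw [← Finset.prod_pow, ← Finset.prod_mul_distrib]
      refine Finset.prod_congr rfl fun i _ => ?_
      rw [← pow_mul, ← pow_add]
    rw [ey] at h1
    have t3 : (3 : ZMod 3) = 0 := by decide
    refine kc_congr (kc_exp (rh0 hD) (fun k => ?_) h1) (fun σ => ?_)
    · push_cast
      rw [ZMod.natCast_zmod_val, ZMod.natCast_zmod_val, ZMod.natCast_zmod_val]
      cases k with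
      | none =>
        show ((0 : ℕ) : ZMod 3) + 2 * (2 * g) = g
        push_cast
        linear_combination g * t3
      | some j =>
        show (((e j * v j).val : ℕ) : ZMod 3) + e j * (2 * g) = e j * (v j - g)
        rw [ZMod.natCast_zmod_val]
        linear_combination e j * g * t3
    · show -a' σ + 2 * g * -a σ = -a' σ + (((2 * g).val : ℕ) : ZMod 3) * -a σ
      rw [ZMod.natCast_zmod_val]

end Pool.Agent.E8helper86.CTL3
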